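import Pool.Agent.Helper58.PLine.Basic

/-!
From a linked alternating bilinear map `q : V × V → B` over `F_2` to quaternionic data with
`-1 = 1` (`e = 0`), used in the work on MP_d26ff6_al.
-/

set_option autoImplicit false

namespace Pool.Agent.RFT

open Pool.Agent.Helper58.PLine

variable {V B : Type} [AddCommGroup V] [Module (ZMod 2) V] [AddCommGroup B] [Module (ZMod 2) B]

/-- Linked alternating bilinear maps over `F_2`: two equal values `q a b = q c d` have a common
slot `x`, that is `q a x = q c x` is this value. -/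
structure LinkedAlt (q : V →ₗ[ZMod 2] V →ₗ[ZMod 2] B) : Prop where
  alt : ∀ x, q x x = 0
  link : ∀ a b c d, q a b = q c d → ∃ x, q a x = q a b ∧ q c x = q a b

/-- A prime functional (the hyperplane `ker φ` is prime). -/
def PrimeFun (q : V →ₗ[ZMod 2] V →ₗ[ZMod 2] B) (φ : V →ₗ[ZMod 2] ZMod 2) : Prop :=
  φ ≠ 0 ∧ ∀ x y, (∃ v, q x v = 0 ∧ φ v = 1) → (∃ v, q y v = 0 ∧ φ v = 1) →
    (∃ v, q (x + y) v = 0 ∧ φ v = 1) → ∃ v, q x v = 0 ∧ q y v = 0 ∧ φ v = 1

theorem eq_of_add_zero {M : Type} [AddCommGroup M] [Module (ZMod 2) M] {x y : M}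
    (h : x + y = 0) : x = y := eq_of_add_eq_zero h

theorem LinkedAlt.symm {q : V →ₗ[ZMod 2] V →ₗ[ZMod 2] B} (h : LinkedAlt q) (x y : V) :
    q x y = q y x := by
  have h1 := h.alt (x + y)
  simp only [map_add, LinearMap.add_apply, h.alt, zero_add, add_zero] at h1
  exact (eq_of_add_eq_zero h1).symm

/-- The quaternionic data of a linked alternating map. -/
def LinkedAlt.toQData {q : V →ₗ[ZMod 2] V →ₗ[ZMod 2] B} (h : LinkedAlt q) : QData V B where
  q x y := q x y
  z := 0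
  e := 0
  symm := h.symm
  add x y w := by
    rw [map_add]
    constructor
    · intro h1
      rw [h1, ZModModule.add_self]
    · exact fun h1 => eq_of_add_eq_zero h1
  diag x := by rw [add_zero, h.alt]
  link a b c d h1 := by
    obtain ⟨x, h2, h3⟩ := h.link a b c d h1
    exact ⟨x, h2.symm, by rw [← h1, h3]⟩

@[simp] theorem LinkedAlt.toQData_q {q : V →ₗ[ZMod 2] V →ₗ[ZMod 2] B} (h : LinkedAlt q)
    (x y : V) : h.toQData.q x y = q x y := rfl

@[simp] theorem LinkedAlt.toQData_z {q : V →ₗ[ZMod 2] V →ₗ[ZMod 2] B} (h : LinkedAlt q) :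
    h.toQData.z = 0 := rfl

@[simp] theorem LinkedAlt.toQData_e {q : V →ₗ[ZMod 2] V →ₗ[ZMod 2] B} (h : LinkedAlt q) :
    h.toQData.e = 0 := rfl

/-- Transfer of a prime functional from the data back to the bilinear map. -/
theorem LinkedAlt.primeFun_of_qdata {q : V →ₗ[ZMod 2] V →ₗ[ZMod 2] B} (h : LinkedAlt q)
    {φ : V →ₗ[ZMod 2] ZMod 2} (h0 : φ ≠ 0)
    (hp : ∀ x y, (∀ p, p = x ∨ p = y ∨ p = x + y → ∃ v, h.toQData.q p v = h.toQData.z ∧ φ v = 1) →
      ∃ v, h.toQData.q x v = h.toQData.z ∧ h.toQData.q y v = h.toQData.z ∧ φ v = 1) :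
    PrimeFun q φ := by
  refine ⟨h0, fun x y hx hy hxy => hp x y ?_⟩
  rintro p (rfl | rfl | rfl)
  · exact hx
  · exact hy
  · exact hxy

end Pool.Agent.RFT
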